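import Mathlib

/-!
# H23TF, file Ex: the exchange property of the sets covered by disjoint cycles
-/

set_option autoImplicit false

namespace H23TF

open Finset

variable {V : Type*}

open Classical in
/-- The degree of `v` in the edge set `X`. -/
noncomputable def dg (X : Finset (Sym2 V)) (v : V) : ℕ := (X.filter (fun e => v ∈ e)).card

open Classical in
lemma dg_insert {X : Finset (Sym2 V)} {e : Sym2 V} (he : e ∉ X) (v : V) :
    dg (insert e X) v = dg X v + if v ∈ e then 1 else 0 := by
  unfold dg
  rw [filter_insert]
  split_ifs with h
  · rw [card_insert_of_notMem]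
    intro h'
    exact he (mem_filter.1 h').1
  · rfl

open Classical in
lemma dg_erase {X : Finset (Sym2 V)} {e : Sym2 V} (he : e ∈ X) (v : V) :
    dg (X.erase e) v + (if v ∈ e then 1 else 0) = dg X v := by
  have h := dg_insert (notMem_erase e X) v
  rw [insert_erase he] at h
  exact h.symm

open Classical in
lemma dg_mono {X Y : Finset (Sym2 V)} (h : X ⊆ Y) (v : V) : dg X v ≤ dg Y v := by
  unfold dg
  exact card_le_card (filter_subset_filter _ h)

open Classical in
lemma dg_pos {X : Finset (Sym2 V)} {e : Sym2 V} {v : V} (he : e ∈ X) (hv : v ∈ e) : 0 < dg X v := by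
  unfold dg
  exact card_pos.2 ⟨e, by simp [he, hv]⟩

open Classical in
/-- If `X` has larger degree at `v` than `Y`, there is an edge of `X` at `v` outside `Y`. -/
lemma exists_edge {X Y : Finset (Sym2 V)} {v : V} (h : dg Y v < dg X v) :
    ∃ e ∈ X, e ∉ Y ∧ v ∈ e := by
  by_contra hc
  push Not at hc
  have : dg X v ≤ dg Y v := by
    unfold dg
    apply card_le_card
    intro e he
    rw [mem_filter] at he ⊢
    refine ⟨?_, he.2⟩
    by_contra h'
    exact hc e he.1 h' he.2
  omega

open Classical in
/-- The walk along an alternating trail. -/
theorem walk (F1 F2 : Finset (Sym2 V)) (A : Set V) (b d : V)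
    (h2 : ∀ v, dg F2 v = 0 ∨ dg F2 v = 2) (hA : ∀ v ∈ A, dg F2 v = 2) (hb : dg F2 b = 0)
    (hb1 : dg F1 b = 2) (hd1 : dg F1 d = 0) (hdA : d ∉ A)
    (hl : ∀ e ∈ F1 ∪ F2, ¬ e.IsDiag) :
    ∀ n : ℕ, ∀ (X : Finset (Sym2 V)) (a : V), X ⊆ F1 ∪ F2 → (symmDiff X F2).card ≤ n → a ≠ d →
      dg X d = 1 → (∀ v, v ≠ a → v ≠ d → dg X v = 0 ∨ dg X v = 2) →
      (∀ v ∈ A, v ≠ a → dg X v = 2) → (b ≠ a → dg X b = 2) → (dg X a = 1 ∨ dg X a = 3) →
      ∃ Y ⊆ F1 ∪ F2,
        ((∀ v, dg Y v = 0 ∨ dg Y v = 2) ∧ (∀ v ∈ A, dg Y v = 2) ∧ dg Y b = 2 ∧ dg Y d = 2) ∨
        ((∀ v, v ≠ b → v ≠ d → dg Y v = 0 ∨ dg Y v = 2) ∧ (∀ v ∈ A, dg Y v = 2) ∧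
          dg Y b = 1 ∧ dg Y d = 1) := by
  have hbd : b ≠ d := by
    rintro rfl
    omega
  have hbA : b ∉ A := fun h => by
    have := hA b h
    omega
  intro n
  induction n with
  | zero =>
    intro X a hX hn had hd hv hvA hvb ha
    exfalso
    have h0 : symmDiff X F2 = ∅ := by
      rw [← card_eq_zero]
      omega
    have h1 : X = F2 := by
      rwa [← bot_eq_empty, symmDiff_eq_bot] at h0
    have h3 := h2 d
    rw [← h1] at h3
    omega
  | succ n ih =>
    intro X a hX hn had hd hv hvA hvb ha
    have hdX : ∀ e ∈ X, e ∉ F2 → d ∉ e := by
      intro e he he2 hde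
      have h1 : e ∈ F1 := by
        rcases mem_union.1 (hX he) with h | h
        · exact h
        · exact absurd h he2
      have := dg_pos h1 hde
      omega
    by_cases hab : a = b
    · subst hab
      have h3 : dg X a ≤ 2 := by
        have h4 : dg X a ≤ dg F1 a := by
          unfold dg
          apply card_le_card
          intro e he
          rw [mem_filter] at he ⊢
          refine ⟨?_, he.2⟩
          rcases mem_union.1 (hX he.1) with h | h
          · exact h
          · have := dg_pos h he.2
            omega
        omega
      refine ⟨X, hX, Or.inr ⟨fun v hv1 hv2 => hv v hv1 hv2, fun v hvA' => hvA v hvA' ?_, by omega, hd⟩⟩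
      rintro rfl
      exact hbA hvA'
    -- removing an edge
    have rem : ∀ e ∈ X, e ∉ F2 → a ∈ e → (dg X a = 3 ∨ (dg X a = 1 ∧ a ∉ A)) → 
      ∃ Y ⊆ F1 ∪ F2,
        ((∀ v, dg Y v = 0 ∨ dg Y v = 2) ∧ (∀ v ∈ A, dg Y v = 2) ∧ dg Y b = 2 ∧ dg Y d = 2) ∨
        ((∀ v, v ≠ b → v ≠ d → dg Y v = 0 ∨ dg Y v = 2) ∧ (∀ v ∈ A, dg Y v = 2) ∧
          dg Y b = 1 ∧ dg Y d = 1) := by
      intro e he he2 hae hcase
      obtain ⟨a', rfl⟩ := Sym2.mem_iff_exists.1 hae
      have haa' : a' ≠ a := by
        rintro rfl
        exact hl _ (hX he) (by simp)
      have ha'd : a' ≠ d := by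
        rintro rfl
        exact hdX _ he he2 (by simp)
      have hE := fun v => dg_erase he v
      have hEa := hE a
      have hEa' := hE a'
      have hEd := hE d
      have hEb := hE b
      simp only [Sym2.mem_iff, true_or, or_true, if_true] at hEa hEa'
      have hda : d ≠ a := had.symm
      have hda' : d ≠ a' := ha'd.symm
      simp only [Sym2.mem_iff, hda, hda', or_self, if_false] at hEd
      have hpos : dg X a' = 0 ∨ dg X a' = 2 := hv a' haa' ha'd
      refine ih (X.erase s(a, a')) a' ((erase_subset _ _).trans hX) ?_ ha'd (by omega) ?_ ?_ ?_ (by omega)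
      · have hsub : symmDiff (X.erase s(a, a')) F2 ⊆ (symmDiff X F2).erase s(a, a') := by
          intro f hf
          rw [mem_symmDiff] at hf
          rw [mem_erase, mem_symmDiff]
          rcases hf with ⟨h1, h2'⟩ | ⟨h1, h2'⟩
          · rw [mem_erase] at h1
            exact ⟨h1.1, Or.inl ⟨h1.2, h2'⟩⟩
          · have hne : f ≠ s(a, a') := by
              rintro rfl
              exact he2 h1
            refine ⟨hne, Or.inr ⟨h1, fun h => h2' (mem_erase.2 ⟨hne, h⟩)⟩⟩
        have hm : s(a, a') ∈ symmDiff X F2 := by
          rw [mem_symmDiff]
          exact Or.inl ⟨he, he2⟩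
        have := card_le_card hsub
        rw [card_erase_of_mem hm] at this
        omega
      · intro v hv1 hv2
        by_cases hva : v = a
        · subst hva
          omega
        · have h5 := hE v
          simp only [Sym2.mem_iff, hva, hv1, or_self, if_false] at h5
          have := hv v hva hv2
          omega
      · intro v hv1 hv2
        by_cases hva : v = a
        · subst hva
          rcases hcase with h | h
          · omega
          · exact absurd hv1 h.2
        · have h5 := hE v
          simp only [Sym2.mem_iff, hva, hv2, or_self, if_false] at h5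
          have := hvA v hv1 hva
          omega
      · intro hb'
        have hba : b ≠ a := fun h => hab h.symm
        simp only [Sym2.mem_iff, hba, hb', or_self, if_false] at hEb
        have := hvb hba
        omega
    rcases ha with ha | ha
    · rcases h2 a with h2a | h2a
      · -- remove the last edge at `a`
        obtain ⟨e, he, he2, hae⟩ := exists_edge (X := X) (Y := F2) (v := a) (by omega)
        refine rem e he he2 hae (Or.inr ⟨ha, fun h => ?_⟩)
        have := hA a h
        omega
      · -- add an edge of `F2`
        obtain ⟨e, he, he2, hae⟩ := exists_edge (X := F2) (Y := X) (v := a) (by omega)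
        obtain ⟨a', rfl⟩ := Sym2.mem_iff_exists.1 hae
        have haa' : a' ≠ a := by
          rintro rfl
          exact hl _ (mem_union_right _ he) (by simp)
        have hE := fun v => dg_insert he2 v
        have hEa := hE a
        have hEa' := hE a'
        simp only [Sym2.mem_iff, true_or, or_true, if_true] at hEa hEa'
        have hsubX : insert s(a, a') X ⊆ F1 ∪ F2 := by
          intro f hf
          rcases mem_insert.1 hf with rfl | hf
          · exact mem_union_right _ he
          · exact hX hf
        have hb' : b ≠ a' := by
          rintro rfl
          have := dg_pos he (v := b) (by simp)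
          omega
        have hba : b ≠ a := fun h => hab h.symm
        have hEb := hE b
        simp only [Sym2.mem_iff, hba, hb', or_self, if_false] at hEb
        have hXb := hvb hba
        by_cases ha'd : a' = d
        · subst ha'd
          refine ⟨insert s(a, a') X, hsubX, Or.inl ⟨?_, ?_, by omega, by omega⟩⟩
          · intro v
            by_cases hva : v = a
            · subst hva
              omega
            by_cases hva' : v = a'
            · subst hva'
              omega
            have h5 := hE v
            simp only [Sym2.mem_iff, hva, hva', or_self, if_false] at h5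
            have := hv v hva hva'
            omega
          · intro v hvA'
            by_cases hva : v = a
            · subst hva
              omega
            by_cases hva' : v = a'
            · subst hva'
              omega
            have h5 := hE v
            simp only [Sym2.mem_iff, hva, hva', or_self, if_false] at h5
            have := hvA v hvA' hva
            omega
        · have hda : d ≠ a := had.symm
          have hda' : d ≠ a' := fun h => ha'd h.symm
          have hEd := hE d
          simp only [Sym2.mem_iff, hda, hda', or_self, if_false] at hEd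
          have hpos : dg X a' = 0 ∨ dg X a' = 2 := hv a' haa' ha'd
          refine ih (insert s(a, a') X) a' hsubX ?_ ha'd (by omega) ?_ ?_ ?_ (by omega)
          · have hsub : symmDiff (insert s(a, a') X) F2 ⊆ (symmDiff X F2).erase s(a, a') := by
              intro f hf
              rw [mem_symmDiff] at hf
              rw [mem_erase, mem_symmDiff]
              rcases hf with ⟨h1, h2'⟩ | ⟨h1, h2'⟩
              · have hne : f ≠ s(a, a') := by
                  rintro rfl
                  exact h2' he
                rcases mem_insert.1 h1 with h | h
                · exact absurd h hne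
                · exact ⟨hne, Or.inl ⟨h, h2'⟩⟩
              · have hne : f ≠ s(a, a') := by
                  rintro rfl
                  exact h2' (mem_insert_self _ _)
                refine ⟨hne, Or.inr ⟨h1, fun h => h2' (mem_insert_of_mem h)⟩⟩
            have hm : s(a, a') ∈ symmDiff X F2 := by
              rw [mem_symmDiff]
              exact Or.inr ⟨he, he2⟩
            have := card_le_card hsub
            rw [card_erase_of_mem hm] at this
            omega
          · intro v hv1 hv2
            by_cases hva : v = a
            · subst hva
              omega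
            · have h5 := hE v
              simp only [Sym2.mem_iff, hva, hv1, or_self, if_false] at h5
              have := hv v hva hv2
              omega
          · intro v hv1 hv2
            by_cases hva : v = a
            · subst hva
              omega
            · have h5 := hE v
              simp only [Sym2.mem_iff, hva, hv2, or_self, if_false] at h5
              have := hvA v hv1 hva
              omega
          · intro _
            omega
    · obtain ⟨e, he, he2, hae⟩ := exists_edge (X := X) (Y := F2) (v := a) (by
        have := h2 a
        omega)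
      exact rem e he he2 hae (Or.inl ha)

end H23TF
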