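import Pool.Agent.Lib.H23TF.R2
import Pool.Agent.Lib.H36R.CP

/-!
# H23TF, file R2b: the statement (R2) for uncovered sets

If `N` is not covered by disjoint cycles of a 2-connected graph, and any two complementary nonempty
parts of `N` are joined by an edge or by a link (a nonempty connected set `B` outside `N` whose only
outside neighbours are `a`, `b`), then `N` is not critical.
-/

set_option autoImplicit false
set_option linter.unusedSectionVars false

namespace H23TF.R2

open Finset H98M H89TF

theorem three_le {V : Type} [Fintype V] [DecidableEq V] {G : Finset (Sym2 V)} {N : Finset V}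
    (hE : ∀ v, s(v, v) ∉ G) (hc : ¬ Disc univ G) (hcut : ∀ z, ¬ Disc (univ.erase z) G)
    (h3 : 3 ≤ Fintype.card V) (hN : ¬ H85TF.Cov G N) : 3 ≤ N.card := by
  by_contra hcon
  have hdiag : ∀ e ∈ G, ¬ e.IsDiag := by
    intro e he hd
    induction e using Sym2.ind with
    | _ a b =>
      rw [Sym2.mk_isDiag_iff] at hd
      subst hd
      exact hE a he
  have hpair := H36R.cov_pair hdiag h3 hc hcut
  apply hN
  rcases N.eq_empty_or_nonempty with rfl | ⟨a, ha⟩
  · exact ⟨∅, empty_subset _, fun v => Or.inl (by simp [H85TF.dg]), by simp⟩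
  · obtain ⟨b, hb⟩ : ∃ b, N ⊆ {a, b} := by
      rcases (N.erase a).eq_empty_or_nonempty with h | ⟨b, hb⟩
      · refine ⟨a, fun v hv => ?_⟩
        by_contra hva
        have : v ∈ N.erase a := mem_erase.2 ⟨fun h' => hva (by simp [h']), hv⟩
        rw [h] at this
        exact absurd this (notMem_empty _)
      · refine ⟨b, fun v hv => ?_⟩
        by_contra hva
        have h1 : v ≠ a := fun h' => hva (by simp [h'])
        have h2 : v ≠ b := fun h' => hva (by simp [h'])
        have h4 : ({a, b, v} : Finset V) ⊆ N := by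
          intro w hw
          simp only [mem_insert, mem_singleton] at hw
          rcases hw with rfl | rfl | rfl
          · exact ha
          · exact (mem_erase.1 hb).2
          · exact hv
        have h5 : ({a, b, v} : Finset V).card = 3 := by
          rw [card_eq_three]
          exact ⟨a, b, v, (mem_erase.1 hb).1.symm, h1.symm, h2.symm, rfl⟩
        have := card_le_card h4
        omega
    obtain ⟨F, hF, hd, hA⟩ := hpair a b
    exact ⟨F, hF, hd, fun v hv => hA v (hb hv)⟩

/-- (T2) / (R2) with the connectivity spelled out. -/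
theorem not_TG' {V : Type} [Fintype V] [DecidableEq V] {G : Finset (Sym2 V)} {N : Finset V}
    (hE : ∀ v, s(v, v) ∉ G) (hc : ¬ Disc univ G) (hcut : ∀ z, ¬ Disc (univ.erase z) G)
    (h3 : 3 ≤ Fintype.card V) (hN : ¬ H85TF.Cov G N)
    (hv : ∀ C D : Finset V, C ∪ D = N → Disjoint C D → C.Nonempty → D.Nonempty →
      ∃ a ∈ C, ∃ b ∈ D, s(a, b) ∈ G ∨ ∃ B : Finset V, B.Nonempty ∧ Disjoint B N ∧ ¬ Disc B G ∧
        ∀ u ∈ B, ∀ w, w ∉ B → s(u, w) ∈ G → w = a ∨ w = b) : ¬ TG G N := by
  refine not_TG ⟨hc, hcut⟩ hE (three_le hE hc hcut h3 hN) ?_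
  rintro ⟨C, D, hC, hD, hd, hu, hno⟩
  obtain ⟨a, ha, b, hb, h⟩ := hv C D hu hd hC hD
  exact hno a ha b hb h

end H23TF.R2
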