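import Pool.Agent.Lib.H4TF.L2
import Pool.Agent.Lib.H23TF.R2b

/-!
# H23TF, file L2F: (L2) without hypotheses
-/

set_option autoImplicit false
set_option linter.unusedSectionVars false

namespace H23TF

open Finset H98P H63F H30F H98M

/-- (T2) in the words of `H4TF.L2`. -/
theorem t2 {V : Type} [Fintype V] [DecidableEq V] {G : Finset (Sym2 V)} (hE : ∀ e ∈ G, ¬ e.IsDiag)
    (hn3 : 3 ≤ Fintype.card V) (hc : ¬ Disc univ G) (hcut : ∀ z, ¬ Disc (univ.erase z) G)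
    (M : Finset V) (hN : ¬ H85TF.Cov G M) (hv : H4TF.VConn G M) : ¬ H89TF.TG G M := by
  refine R2.not_TG' (fun v hv => hE _ hv (Sym2.mk_isDiag_iff.2 rfl)) hc hcut hn3 hN ?_
  intro C D hu hd hC hD
  obtain ⟨a, ha, b, hb, h⟩ := hv C D hu hd hC hD
  refine ⟨a, ha, b, hb, ?_⟩
  rcases h with h | ⟨B, h1, h2, h3, _, _, _, _, h8⟩
  · exact Or.inl h
  · exact Or.inr ⟨B, h1, h2, h3, h8⟩

/-- The lower links. -/
theorem low {V : Type} [Fintype V] [DecidableEq V] {G : Finset (Sym2 V)} (hE : ∀ e ∈ G, ¬ e.IsDiag)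
    (hn3 : 3 ≤ Fintype.card V) (hc : ¬ Disc univ G) (hcut : ∀ z, ¬ Disc (univ.erase z) G)
    {M : Finset V} (hcov : ¬ H85TF.Cov G M) (hX : ¬ H4TF.X2 G M) (hv : H4TF.VConn G M) :
    AC (Ch fun W : Finset V => (¬ H85TF.Cov G W ∨ H4TF.X2 G W) ∧ W ⊂ M) :=
  H4TF.low hE hn3 hc hcut (t2 hE hn3 hc hcut) hcov hX hv

/-- (L2): in a 2-connected graph with uncoverable vertex set, the disconnected sets which are
uncoverable or 2-separated form an acyclic poset. -/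
theorem L2 {V : Type} [Fintype V] [DecidableEq V] {G : Finset (Sym2 V)} (hE : ∀ e ∈ G, ¬ e.IsDiag)
    (hn3 : 3 ≤ Fintype.card V) (hc : ¬ Disc univ G) (hcut : ∀ z, ¬ Disc (univ.erase z) G)
    (hV : ¬ H85TF.Cov G univ) :
    AC (Ch fun W : Finset V => (¬ H85TF.Cov G W ∨ H4TF.X2 G W) ∧ Disc W G) :=
  H4TF.L2 hE hn3 hc hcut (t2 hE hn3 hc hcut) hV

end H23TF

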