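import Pool.Agent.Lib.H23TF.Ex

/-!
# H23TF, file P1: the exchange property (P1)
-/

set_option autoImplicit false

namespace H23TF

open Finset

variable {V : Type*}

/-- `A` is covered by pairwise disjoint cycles with edges in `E`. -/
def Cov (E : Finset (Sym2 V)) (A : Finset V) : Prop :=
  ∃ F ⊆ E, (∀ v, dg F v = 0 ∨ dg F v = 2) ∧ ∀ v ∈ A, dg F v = 2

open Classical in
/-- Closing a system with two ends by a path. -/
theorem path_ext (E : Finset (Sym2 V)) (G : SimpleGraph V) (hG : ∀ u v, G.Adj u v → s(u, v) ∈ E)
    (d : V) : ∀ (u : V) (p : G.Walk u d), p.IsPath → u ≠ d → ∀ Y ⊆ E, dg Y u = 1 → dg Y d = 1 →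
      (∀ v, v ≠ u → v ≠ d → dg Y v = 0 ∨ dg Y v = 2) →
      (∀ r ∈ p.support, r ≠ u → r ≠ d → dg Y r = 0) → (∀ r ∈ p.support, s(u, r) ∉ Y) →
      ∃ Z ⊆ E, (∀ v, dg Z v = 0 ∨ dg Z v = 2) ∧ (∀ v, dg Y v = 2 → dg Z v = 2) ∧
        dg Z u = 2 ∧ dg Z d = 2 := by
  intro u p
  induction p with
  | nil => intro _ h; exact absurd rfl h
  | @cons u w d h q ih =>
    intro hp hud Y hY hu hd hv hr hs
    rw [SimpleGraph.Walk.cons_isPath_iff] at hp
    have hwY : s(u, w) ∉ Y := hs w (by simp)
    have hE := fun v => dg_insert hwY v
    have huw : u ≠ w := h.ne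
    have hEu := hE u
    have hEw := hE w
    simp only [Sym2.mem_iff, true_or, or_true, if_true] at hEu hEw
    have hsub : insert s(u, w) Y ⊆ E := by
      intro f hf
      rcases mem_insert.1 hf with rfl | hf
      · exact hG _ _ h
      · exact hY hf
    by_cases hwd : w = d
    · subst hwd
      refine ⟨insert s(u, w) Y, hsub, ?_, ?_, by omega, by omega⟩
      · intro v
        by_cases h1 : v = u
        · subst h1
          omega
        by_cases h2 : v = w
        · subst h2
          omega
        have h5 := hE v
        simp only [Sym2.mem_iff, h1, h2, or_self, if_false] at h5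
        have := hv v h1 h2
        omega
      · intro v hv2
        have h1 : v ≠ u := by
          rintro rfl
          omega
        have h2 : v ≠ w := by
          rintro rfl
          omega
        have h5 := hE v
        simp only [Sym2.mem_iff, h1, h2, or_self, if_false] at h5
        omega
    · have hw0 : dg Y w = 0 := hr w (by simp) (Ne.symm huw) hwd
      have hEd := hE d
      have hdu : d ≠ u := Ne.symm hud
      have hdw : d ≠ w := fun h => hwd h.symm
      simp only [Sym2.mem_iff, hdu, hdw, or_self, if_false] at hEd
      obtain ⟨Z, hZ, hZ1, hZ2, hZ3, hZ4⟩ := ih hp.1 hwd (insert s(u, w) Y) hsub (by omega) (by omega)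
        (by
          intro v h1 h2
          by_cases h3 : v = u
          · subst h3
            omega
          have h5 := hE v
          simp only [Sym2.mem_iff, h1, h3, or_self, if_false] at h5
          have := hv v h3 h2
          omega)
        (by
          intro r hr1 h1 h2
          have h3 : r ≠ u := by
            rintro rfl
            exact hp.2 hr1
          have h5 := hE r
          simp only [Sym2.mem_iff, h1, h3, or_self, if_false] at h5
          have := hr r (by simp [hr1]) h3 h2
          omega)
        (by
          intro r hr1 hmem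
          have h3 : r ≠ u := by
            rintro rfl
            exact hp.2 hr1
          rcases mem_insert.1 hmem with h4 | h4
          · rw [Sym2.eq_iff] at h4
            rcases h4 with ⟨h5, h6⟩ | ⟨h5, h6⟩
            · exact huw h5.symm
            · exact h3 h6
          · have := dg_pos h4 (v := w) (by simp)
            omega)
      refine ⟨Z, hZ, hZ1, ?_, ?_, hZ4⟩
      · intro v hv2
        apply hZ2
        have h1 : v ≠ u := by
          rintro rfl
          omega
        have h2 : v ≠ w := by
          rintro rfl
          omega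
        have h5 := hE v
        simp only [Sym2.mem_iff, h1, h2, or_self, if_false] at h5
        omega
      · apply hZ2
        omega

open Classical in
/-- (P1) The exchange property. -/
theorem exch (E : Finset (Sym2 V)) (hl : ∀ e ∈ E, ¬ e.IsDiag) (A : Finset V) (b d : V)
    (hb : Cov E (insert b A)) (hd : Cov E (insert d A))
    (G : SimpleGraph V) (hG : ∀ u v, G.Adj u v → s(u, v) ∈ E)
    (p : G.Walk b d) (hp : p.IsPath)
    (hin : ∀ r ∈ p.support, r ≠ b → r ≠ d → r ∉ A ∧ ¬ Cov E (insert r A)) :
    Cov E (insert b (insert d A)) := by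
  obtain ⟨F1, hF1, h1, h1A⟩ := hb
  obtain ⟨F2, hF2, h2, h2A⟩ := hd
  have hb1 : dg F1 b = 2 := h1A b (by simp)
  have hd2 : dg F2 d = 2 := h2A d (by simp)
  rcases h1 d with hd1 | hd1
  swap
  · refine ⟨F1, hF1, h1, ?_⟩
    intro v hv
    rw [mem_insert, mem_insert] at hv
    rcases hv with rfl | rfl | hv
    · exact hb1
    · exact hd1
    · exact h1A v (by simp [hv])
  rcases h2 b with hb2 | hb2
  swap
  · refine ⟨F2, hF2, h2, ?_⟩
    intro v hv
    rw [mem_insert, mem_insert] at hv
    rcases hv with rfl | rfl | hv
    · exact hb2
    · exact hd2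
    · exact h2A v (by simp [hv])
  have hbd : b ≠ d := by
    rintro rfl
    omega
  have hdA : d ∉ A := by
    intro h
    have := h1A d (by simp [h])
    omega
  have hsub : F1 ∪ F2 ⊆ E := union_subset hF1 hF2
  have hin0 : ∀ r ∈ p.support, r ≠ b → r ≠ d → dg F1 r = 0 ∧ dg F2 r = 0 := by
    intro r hr hrb hrd
    obtain ⟨hrA, hrc⟩ := hin r hr hrb hrd
    constructor
    · rcases h1 r with h | h
      · exact h
      · exfalso
        apply hrc
        refine ⟨F1, hF1, h1, ?_⟩
        intro v hv
        rcases mem_insert.1 hv with rfl | hv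
        · exact h
        · exact h1A v (by simp [hv])
    · rcases h2 r with h | h
      · exact h
      · exfalso
        apply hrc
        refine ⟨F2, hF2, h2, ?_⟩
        intro v hv
        rcases mem_insert.1 hv with rfl | hv
        · exact h
        · exact h2A v (by simp [hv])
  obtain ⟨e, he, he1, hde⟩ := exists_edge (X := F2) (Y := F1) (v := d) (by omega)
  obtain ⟨a, rfl⟩ := Sym2.mem_iff_exists.1 hde
  have had : a ≠ d := by
    rintro rfl
    exact hl _ (hF2 he) (by simp)
  have hab : b ≠ a := by
    rintro rfl
    have := dg_pos he (v := b) (by simp)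
    omega
  have hE := fun v => dg_insert he1 v
  have hEd := hE d
  have hEa := hE a
  have hEb := hE b
  simp only [Sym2.mem_iff, true_or, or_true, if_true] at hEd hEa
  simp only [Sym2.mem_iff, hbd, hab, or_self, if_false] at hEb
  have ha1 := h1 a
  obtain ⟨Y, hY, hYc⟩ := walk F1 F2 (A : Set V) b d h2 (fun v hv => h2A v (by simp [Finset.mem_coe.1 hv])) hb2 hb1 hd1
    (by simpa using hdA) (fun e he => hl e (hsub he)) (symmDiff (insert s(d, a) F1) F2).card
    (insert s(d, a) F1) a
    (by
      intro f hf
      rcases mem_insert.1 hf with rfl | hf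
      · exact mem_union_right _ he
      · exact mem_union_left _ hf) le_rfl had (by omega)
    (by
      intro v hv1 hv2
      have h5 := hE v
      simp only [Sym2.mem_iff, hv1, hv2, or_self, if_false] at h5
      have := h1 v
      omega)
    (by
      intro v hv1 hv2
      have hvA : v ∈ A := hv1
      have hvd : v ≠ d := by
        rintro rfl
        exact hdA hvA
      have h5 := hE v
      simp only [Sym2.mem_iff, hvd, hv2, or_self, if_false] at h5
      have := h1A v (by simp [hvA])
      omega)
    (by
      intro _
      omega) (by omega)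
  rcases hYc with ⟨h3, h4, h5, h6⟩ | ⟨h3, h4, h5, h6⟩
  · refine ⟨Y, hY.trans hsub, h3, ?_⟩
    intro v hv
    rw [mem_insert, mem_insert] at hv
    rcases hv with rfl | rfl | hv
    · exact h5
    · exact h6
    · exact h4 v (Finset.mem_coe.2 hv)
  · have hY0 : ∀ r, dg F1 r = 0 → dg F2 r = 0 → ∀ e ∈ Y, r ∉ e := by
      intro r hr1 hr2 e he hre
      rcases mem_union.1 (hY he) with h | h
      · have := dg_pos h hre
        omega
      · have := dg_pos h hre
        omega
    obtain ⟨Z, hZ, hZ1, hZ2, hZ3, hZ4⟩ := path_ext E G hG d b p hp hbd Y (hY.trans hsub) h5 h6 h3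
      (by
        intro r hr hrb hrd
        obtain ⟨hr1, hr2⟩ := hin0 r hr hrb hrd
        by_contra hne
        have hpos : 0 < dg Y r := by omega
        unfold dg at hpos
        obtain ⟨f, hf⟩ := card_pos.1 hpos
        rw [mem_filter] at hf
        exact hY0 r hr1 hr2 f hf.1 hf.2)
      (by
        intro r hr hmem
        by_cases hrb : r = b
        · subst hrb
          exact hl _ (hsub (hY hmem)) (by simp)
        by_cases hrd : r = d
        · subst hrd
          rcases mem_union.1 (hY hmem) with h | h
          · have := dg_pos h (v := r) (by simp)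
            omega
          · have := dg_pos h (v := b) (by simp)
            omega
        · obtain ⟨hr1, hr2⟩ := hin0 r hr hrb hrd
          exact hY0 r hr1 hr2 _ hmem (by simp))
    refine ⟨Z, hZ, hZ1, ?_⟩
    intro v hv
    rw [mem_insert, mem_insert] at hv
    rcases hv with rfl | rfl | hv
    · exact hZ3
    · exact hZ4
    · exact hZ2 v (h4 v (Finset.mem_coe.2 hv))

end H23TF
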