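import Pool.Agent.Lib.H89TF.D
import Pool.Agent.Lib.H85TF.P2

/-!
# H23TF, file R2: a set which is connected by edges and by outside links is not critical
-/

set_option autoImplicit false
set_option linter.unusedSectionVars false

namespace H23TF.R2

open Finset H98M H89TF

variable {V : Type*} [Fintype V] [DecidableEq V]

/-- `x`, `y` are joined by an edge, or linked through a connected set `D` outside `M` whose only
neighbours are `x` and `y`. -/
def Lk (G : Finset (Sym2 V)) (M : Finset V) (x y : V) : Prop :=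
  s(x, y) ∈ G ∨ ∃ D : Finset V, D.Nonempty ∧ Disjoint D M ∧ ¬ Disc D G ∧
    ∀ u ∈ D, ∀ w, w ∉ D → s(u, w) ∈ G → w = x ∨ w = y

/-- The edges of a path. -/
theorem path_edges {G : Finset (Sym2 V)} {d : V} :
    ∀ {x : V} (p : (SimpleGraph.fromEdgeSet (G : Set (Sym2 V))).Walk x d), p.IsPath → x ≠ d →
      ∃ F ⊆ G, (∀ e ∈ F, ∀ v ∈ e, v ∈ p.support) ∧ dg F x = 1 ∧ dg F d = 1 ∧
        ∀ v, v ≠ x → v ≠ d → dg F v = 0 ∨ dg F v = 2 := by
  intro x p
  induction p with
  | nil => intro _ h; exact absurd rfl h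
  | @cons x y d h q ih =>
    intro hp hxd
    rw [SimpleGraph.fromEdgeSet_adj] at h
    obtain ⟨hxy, hxy'⟩ := h
    have hxyG : s(x, y) ∈ G := by exact_mod_cast hxy
    rw [SimpleGraph.Walk.cons_isPath_iff] at hp
    by_cases hyd : y = d
    · subst hyd
      refine ⟨{s(x, y)}, singleton_subset_iff.2 hxyG, ?_, ?_, ?_, ?_⟩
      · intro e he v hv
        rw [mem_singleton] at he
        subst he
        rcases Sym2.mem_iff.1 hv with rfl | rfl
        · simp
        · simp
      · have := dg_insert (F := ∅) (e := s(x, y)) (notMem_empty _) x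
        rw [dg_empty] at this
        simpa using this
      · have := dg_insert (F := ∅) (e := s(x, y)) (notMem_empty _) y
        rw [dg_empty] at this
        simpa using this
      · intro v h1 h2
        left
        apply dg_eq_zero
        intro e he hv
        rw [mem_singleton] at he
        subst he
        rcases Sym2.mem_iff.1 hv with rfl | rfl
        · exact h1 rfl
        · exact h2 rfl
    · obtain ⟨F, hF, hFs, h1, h2, h3⟩ := ih hp.1 hyd
      have hx0 : ∀ e ∈ F, x ∉ e := fun e he hx => hp.2 (hFs e he x hx)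
      have hn : s(x, y) ∉ F := fun h => hx0 _ h (Sym2.mem_mk_left _ _)
      have key := dg_insert hn
      have hdx : dg F x = 0 := dg_eq_zero hx0
      refine ⟨insert s(x, y) F, insert_subset hxyG hF, ?_, ?_, ?_, ?_⟩
      · intro e he v hv
        rcases mem_insert.1 he with rfl | he
        · rcases Sym2.mem_iff.1 hv with rfl | rfl
          · simp
          · simp
        · have := hFs e he v hv
          simp [this]
      · rw [key x, hdx, if_pos (Sym2.mem_mk_left _ _)]
        norm_num
      · rw [key d, h2, if_neg]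
        · norm_num
        · rw [Sym2.mem_iff]
          rintro (h | h)
          · exact hxd h.symm
          · exact hyd h.symm
      · intro v h4 h5
        rw [key v]
        by_cases h6 : v = y
        · subst h6
          rw [h1, if_pos (Sym2.mem_mk_right _ _)]
          right
          norm_num
        · rw [if_neg]
          · have := h3 v h6 h5
            simpa using this
          · rw [Sym2.mem_iff]
            rintro (h | h)
            · exact h4 h
            · exact h6 h

/-- First hit of `T` along a walk. -/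
theorem first_hit {G : SimpleGraph V} (T : Finset V) {d : V} :
    ∀ {x : V} (p : G.Walk x d), d ∈ T → ∃ (m : V) (q : G.Walk x m), m ∈ T ∧
      (∀ r ∈ q.support, r ∈ p.support) ∧ ∀ r ∈ q.support, r ∈ T → r = m := by
  intro x p
  induction p with
  | @nil x => intro h; exact ⟨x, SimpleGraph.Walk.nil, h, fun r hr => hr, fun r hr _ => by simpa using hr⟩
  | @cons x y d h q ih =>
    intro hd
    by_cases hx : x ∈ T
    · exact ⟨x, SimpleGraph.Walk.nil, hx, fun r hr => by
        have : r = x := by simpa using hr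
        simp [this], fun r hr _ => by simpa using hr⟩
    · obtain ⟨m, q', hm, h1, h2⟩ := ih hd
      refine ⟨m, SimpleGraph.Walk.cons h q', hm, ?_, ?_⟩
      · intro r hr
        rw [SimpleGraph.Walk.support_cons, List.mem_cons] at hr ⊢
        rcases hr with hr | hr
        · exact Or.inl hr
        · exact Or.inr (h1 r hr)
      · intro r hr hrT
        rw [SimpleGraph.Walk.support_cons, List.mem_cons] at hr
        rcases hr with rfl | hr
        · exact absurd hrT hx
        · exact h2 r hr hrT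

/-- A path which meets the boundary of `Z` only in its last vertex does not enter `Z`. -/
theorem avoid {G : Finset (Sym2 V)} {Z B : Finset V}
    (hZ : ∀ u ∈ Z, ∀ w, w ∉ Z → s(u, w) ∈ G → w ∈ B) {d : V} :
    ∀ {x : V} (p : (SimpleGraph.fromEdgeSet (G : Set (Sym2 V))).Walk x d), p.IsPath → x ∉ Z →
      (∀ r ∈ p.support, r ≠ d → r ∉ B) → ∀ r ∈ p.support, r ∉ Z := by
  intro x p
  induction p with
  | @nil x =>
    intro _ hx _ r hr
    have : r = x := by simpa using hr
    rw [this]
    exact hx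
  | @cons x y d h q ih =>
    intro hp hx hB r hr
    rw [SimpleGraph.fromEdgeSet_adj] at h
    obtain ⟨hxy, hxy'⟩ := h
    have hxyG : s(x, y) ∈ G := by exact_mod_cast hxy
    rw [SimpleGraph.Walk.cons_isPath_iff] at hp
    have hxd : x ≠ d := by
      rintro rfl
      exact hp.2 (SimpleGraph.Walk.end_mem_support _)
    have hxB : x ∉ B := hB x (by simp) hxd
    have hy : y ∉ Z := fun h1 => hxB (hZ y h1 x hx (by rw [Sym2.eq_swap]; exact hxyG))
    rw [SimpleGraph.Walk.support_cons, List.mem_cons] at hr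
    rcases hr with rfl | hr
    · exact hx
    · exact ih hp.1 hy (fun r hr h1 => hB r (by simp [hr]) h1) r hr

theorem adj_of {G : Finset (Sym2 V)} (hl : ∀ v, s(v, v) ∉ G) {x y : V} (h : s(x, y) ∈ G) :
    (SimpleGraph.fromEdgeSet (G : Set (Sym2 V))).Adj x y := by
  rw [SimpleGraph.fromEdgeSet_adj]
  refine ⟨by exact_mod_cast h, ?_⟩
  rintro rfl
  exact hl _ h

/-- A region with neighbours in `{x, y}` is adjacent to `y`. -/
theorem adj_region {G : Finset (Sym2 V)} (hG : H8F.TC G) {D : Finset V} {x y : V} (hD : D.Nonempty)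
    (hx : x ∉ D) (hy : y ∉ D) (hxy : x ≠ y)
    (h : ∀ u ∈ D, ∀ w, w ∉ D → s(u, w) ∈ G → w = x ∨ w = y) : ∃ u ∈ D, s(u, y) ∈ G := by
  have h1 := hG.2 x
  obtain ⟨u, hu, w, hw, hwD, huw⟩ := H89TF.exists_edge h1 hD (S := D) (by
    intro v hv
    refine mem_erase.2 ⟨?_, mem_univ _⟩
    rintro rfl
    exact hx hv) (by
    intro h2
    apply hy
    rw [h2]
    exact mem_erase.2 ⟨Ne.symm hxy, mem_univ _⟩)
  rcases h u hu w hwD huw with h2 | h2
  · exact absurd h2 (mem_erase.1 hw).1
  · exact ⟨u, hu, h2 ▸ huw⟩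

/-- The edges of a link. -/
theorem link_edges {G : Finset (Sym2 V)} (hG : H8F.TC G) (hl : ∀ v, s(v, v) ∉ G) {M : Finset V}
    {x y : V} (hx : x ∈ M) (hy : y ∈ M) (hxy : x ≠ y) (h : Lk G M x y) :
    ∃ (D F : Finset _), Disjoint D M ∧ (D = ∅ ∨ ∃ u ∈ D, s(u, y) ∈ G) ∧ (D = ∅ ∨ ¬ Disc D G) ∧
      (∀ u ∈ D, ∀ w, w ∉ D → s(u, w) ∈ G → w = x ∨ w = y) ∧
      F ⊆ G ∧ (∀ e ∈ F, ∀ v ∈ e, v ∈ D ∨ v = x ∨ v = y) ∧ dg F x = 1 ∧ dg F y = 1 ∧
      ∀ v, v ≠ x → v ≠ y → dg F v = 0 ∨ dg F v = 2 := by
  rcases h with h | ⟨D, hD, hDM, hDc, hDn⟩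
  · obtain ⟨F, hF, hFs, h1, h2, h3⟩ := path_edges
      (SimpleGraph.Walk.cons (adj_of hl h) SimpleGraph.Walk.nil) (by simp [hxy]) hxy
    refine ⟨∅, F, disjoint_empty_left _, Or.inl rfl, Or.inl rfl, fun u hu => absurd hu (notMem_empty u),
      hF, ?_, h1, h2, h3⟩
    intro e he v hv
    have := hFs e he v hv
    simp only [SimpleGraph.Walk.support_cons, SimpleGraph.Walk.support_nil, List.mem_cons,
      List.not_mem_nil, or_false] at this
    exact Or.inr this
  · have hxD : x ∉ D := fun h1 => disjoint_left.1 hDM h1 hx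
    have hyD : y ∉ D := fun h1 => disjoint_left.1 hDM h1 hy
    obtain ⟨b, hb, hby⟩ := adj_region hG hD hxD hyD hxy hDn
    obtain ⟨a, ha, hax⟩ := adj_region hG hD hyD hxD (Ne.symm hxy) (fun u hu w hw huw =>
      (hDn u hu w hw huw).symm)
    obtain ⟨p, hp, hpD⟩ := H85TF.path_of_not_disc hDc ha hb
    have hxa : (SimpleGraph.fromEdgeSet (G : Set (Sym2 V))).Adj x a :=
      adj_of hl (by rw [Sym2.eq_swap]; exact hax)
    set q := SimpleGraph.Walk.cons hxa (p.concat (adj_of hl hby)) with hq
    have hqs : ∀ r ∈ q.support, r ∈ D ∨ r = x ∨ r = y := by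
      intro r hr
      rw [hq, SimpleGraph.Walk.support_cons, SimpleGraph.Walk.support_concat, List.mem_cons] at hr
      rcases hr with hr | hr
      · exact Or.inr (Or.inl hr)
      · have hr' : r ∈ p.support ∨ r = y := by simpa using hr
        rcases hr' with hr | hr
        · exact Or.inl (hpD r hr)
        · exact Or.inr (Or.inr hr)
    obtain ⟨F, hF, hFs, h1, h2, h3⟩ := path_edges q.bypass q.bypass_isPath hxy
    refine ⟨D, F, hDM, Or.inr ⟨b, hb, hby⟩, Or.inr hDc, hDn, hF, ?_, h1, h2, h3⟩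
    intro e he v hv
    exact hqs v (q.support_bypass_subset_support (hFs e he v hv))

/-- The growing system. -/
def Sys (G : Finset (Sym2 V)) (M N : Finset V) (F : Finset (Sym2 V)) (Z : Finset V) : Prop :=
  N ⊆ M ∧ Disjoint Z M ∧ F ⊆ G ∧ (∀ e ∈ F, ∀ v ∈ e, v ∈ N ∨ v ∈ Z) ∧
    (∀ v, v ∉ M → dg F v = 0 ∨ dg F v = 2) ∧ ∑ v ∈ M, dg F v = 2 * ((N.card : ℤ) - 1) ∧
    ∀ u ∈ Z, ∀ w, w ∉ Z → s(u, w) ∈ G → w ∈ N

/-- Two sets of edges without common vertices outside two sets; the new one is a path. -/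
theorem sum_path {M : Finset V} {F : Finset (Sym2 V)} {D : Finset V} {x y : V} (hD : Disjoint D M)
    (hx : x ∈ M) (hy : y ∈ M) (hxy : x ≠ y) (hF : ∀ e ∈ F, ∀ v ∈ e, v ∈ D ∨ v = x ∨ v = y)
    (h1 : dg F x = 1) (h2 : dg F y = 1) : ∑ v ∈ M, dg F v = 2 := by
  have h3 : ∑ v ∈ ({x, y} : Finset V), dg F v = ∑ v ∈ M, dg F v := by
    apply sum_subset
    · intro v hv
      rcases mem_insert.1 hv with rfl | hv
      · exact hx
      · rw [mem_singleton] at hv
        rw [hv]
        exact hy
    · intro v hv hn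
      apply dg_eq_zero
      intro e he hve
      rcases hF e he v hve with h | h | h
      · exact disjoint_left.1 hD h hv
      · exact hn (by simp [h])
      · exact hn (by simp [h])
  rw [← h3, sum_pair hxy, h1, h2]
  norm_num

theorem region_disj {G : Finset (Sym2 V)} {M N Z D : Finset V} {y : V} (hNM : N ⊆ M) (hyN : y ∉ N)
    (hyM : y ∈ M) (hZM : Disjoint Z M)
    (hZ : ∀ u ∈ Z, ∀ w, w ∉ Z → s(u, w) ∈ G → w ∈ N) (hDM : Disjoint D M)
    (hDy : D = ∅ ∨ ∃ u ∈ D, s(u, y) ∈ G) (hDc : D = ∅ ∨ ¬ Disc D G) : Disjoint D Z := by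
  rcases hDy with h | ⟨b, hb, hby⟩
  · rw [h]
    exact disjoint_empty_left _
  rcases hDc with h | hDc
  · rw [h]
    exact disjoint_empty_left _
  rw [disjoint_iff_inter_eq_empty]
  by_contra hne
  have hne' : (D ∩ Z).Nonempty := nonempty_iff_ne_empty.2 hne
  have hyZ : y ∉ Z := fun h => disjoint_left.1 hZM h hyM
  by_cases hsub : D ∩ Z = D
  · have hbZ : b ∈ Z := by
      rw [← hsub] at hb
      exact (mem_inter.1 hb).2
    exact hyN (hZ b hbZ y hyZ hby)
  · obtain ⟨u, hu, w, hw, hwn, huw⟩ := H89TF.exists_edge hDc hne' inter_subset_left hsub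
    have hwZ : w ∉ Z := fun h => hwn (mem_inter.2 ⟨hw, h⟩)
    exact disjoint_left.1 hDM hw (hNM (hZ u (mem_inter.1 hu).2 w hwZ huw))

/-- One more vertex. -/
theorem grow {G : Finset (Sym2 V)} (hl : ∀ v, s(v, v) ∉ G) {M N : Finset V} {F : Finset (Sym2 V)}
    {Z : Finset V} {x y : V}
    (hS : Sys G M N F Z) (hx : x ∈ N) (hy : y ∈ M) (hyN : y ∉ N) {D : Finset V} {P : Finset (Sym2 V)}
    (hDM : Disjoint D M) (hDy : D = ∅ ∨ ∃ u ∈ D, s(u, y) ∈ G) (hDc : D = ∅ ∨ ¬ Disc D G)
    (hDn : ∀ u ∈ D, ∀ w, w ∉ D → s(u, w) ∈ G → w = x ∨ w = y)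
    (hP : P ⊆ G) (hPs : ∀ e ∈ P, ∀ v ∈ e, v ∈ D ∨ v = x ∨ v = y) (h1 : dg P x = 1) (h2 : dg P y = 1)
    (h3 : ∀ v, v ≠ x → v ≠ y → dg P v = 0 ∨ dg P v = 2) :
    Sys G M (insert y N) (F ∪ P) (Z ∪ D) := by
  obtain ⟨hNM, hZM, hF, hFs, hFd, hsum, hZ⟩ := hS
  have hxM : x ∈ M := hNM hx
  have hxy : x ≠ y := by
    rintro rfl
    exact hyN hx
  have hDZ := region_disj hNM hyN hy hZM hZ hDM hDy hDc
  have hyZ : y ∉ Z := fun h => disjoint_left.1 hZM h hy
  have hFP : Disjoint F P := by
    rw [disjoint_left]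
    intro e heF heP
    have h4 : ∀ v ∈ e, v = x := by
      intro v hv
      rcases hFs e heF v hv with h5 | h5
      · rcases hPs e heP v hv with h6 | h6 | h6
        · exact absurd (hNM h5) (disjoint_left.1 hDM h6)
        · exact h6
        · exact absurd (h6 ▸ h5) hyN
      · rcases hPs e heP v hv with h6 | h6 | h6
        · exact absurd h5 (disjoint_left.1 hDZ h6)
        · exact h6
        · exact absurd (h6 ▸ h5) hyZ
    induction e using Sym2.ind with
    | _ a b =>
      have ha := h4 a (Sym2.mem_mk_left _ _)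
      have hb := h4 b (Sym2.mem_mk_right _ _)
      subst ha
      subst hb
      exact hl _ (hF heF)
  refine ⟨insert_subset hy hNM, ?_, union_subset hF hP, ?_, ?_, ?_, ?_⟩
  · rw [disjoint_union_left]
    exact ⟨hZM, hDM⟩
  · intro e he v hv
    rcases mem_union.1 he with he | he
    · rcases hFs e he v hv with h | h
      · exact Or.inl (mem_insert_of_mem h)
      · exact Or.inr (mem_union_left _ h)
    · rcases hPs e he v hv with h | h | h
      · exact Or.inr (mem_union_right _ h)
      · exact Or.inl (mem_insert_of_mem (h ▸ hx))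
      · exact Or.inl (h ▸ mem_insert_self _ _)
  · intro v hv
    rw [dg_union hFP]
    by_cases hvZ : v ∈ Z
    · have h4 : dg P v = 0 := dg_eq_zero (by
        intro e he hve
        rcases hPs e he v hve with h | h | h
        · exact disjoint_left.1 hDZ h hvZ
        · exact hv (h ▸ hxM)
        · exact hv (h ▸ hy))
      rw [h4, add_zero]
      exact hFd v hv
    · have h4 : dg F v = 0 := dg_eq_zero (by
        intro e he hve
        rcases hFs e he v hve with h | h
        · exact hv (hNM h)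
        · exact hvZ h)
      rw [h4, zero_add]
      exact h3 v (fun h => hv (h ▸ hxM)) (fun h => hv (h ▸ hy))
  · have h4 := sum_path hDM hxM hy hxy hPs h1 h2
    rw [sum_congr rfl fun v _ => dg_union hFP v, sum_add_distrib, hsum, h4, card_insert_of_notMem hyN]
    push_cast
    ring
  · intro u hu w hw huw
    rw [notMem_union] at hw
    rcases mem_union.1 hu with hu | hu
    · exact mem_insert_of_mem (hZ u hu w hw.1 huw)
    · rcases hDn u hu w hw.2 huw with h | h
      · exact mem_insert_of_mem (h ▸ hx)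
      · exact h ▸ mem_insert_self _ _

/-- `M` splits into two nonempty parts without links. -/
def DL (G : Finset (Sym2 V)) (M : Finset V) : Prop :=
  ∃ C D : Finset V, C.Nonempty ∧ D.Nonempty ∧ Disjoint C D ∧ C ∪ D = M ∧
    ∀ x ∈ C, ∀ y ∈ D, ¬ Lk G M x y

theorem next {G : Finset (Sym2 V)} {M N : Finset V} (hM : ¬ DL G M) (hN : N.Nonempty) (hNM : N ⊆ M)
    (hne : N ≠ M) : ∃ x ∈ N, ∃ y ∈ M, y ∉ N ∧ Lk G M x y := by
  by_contra hcon
  push Not at hcon
  refine hM ⟨N, M \ N, hN, ?_, disjoint_sdiff, union_sdiff_of_subset hNM, fun x hx y hy =>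
    hcon x hx y (mem_sdiff.1 hy).1 (mem_sdiff.1 hy).2⟩
  rw [nonempty_iff_ne_empty]
  intro h1
  exact hne (Subset.antisymm hNM (sdiff_eq_empty_iff_subset.1 h1))

theorem sys_exists {G : Finset (Sym2 V)} (hG : H8F.TC G) (hl : ∀ v, s(v, v) ∉ G) {M : Finset V}
    (hM : ¬ DL G M) (hMn : M.Nonempty) :
    ∀ k : ℕ, k < M.card → ∃ (N Z : Finset V) (F : Finset (Sym2 V)), N.card = k + 1 ∧ Sys G M N F Z := by
  intro k
  induction k with
  | zero =>
    intro _
    obtain ⟨m, hm⟩ := hMn
    refine ⟨{m}, ∅, ∅, by simp, singleton_subset_iff.2 hm, disjoint_empty_left _, empty_subset _,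
      by simp, fun v _ => Or.inl (dg_empty v), ?_, by simp⟩
    simp [dg_empty]
  | succ k ih =>
    intro hk
    obtain ⟨N, Z, F, hNc, hS⟩ := ih (by omega)
    obtain ⟨x, hx, y, hy, hyN, hxy⟩ := next hM (card_pos.1 (by omega)) hS.1 (by
      rintro rfl
      omega)
    have hne : x ≠ y := by
      rintro rfl
      exact hyN hx
    obtain ⟨D, P, hDM, hDy, hDc, hDn, hP, hPs, h1, h2, h3⟩ := link_edges hG hl (hS.1 hx) hy hne hxy
    exact ⟨insert y N, Z ∪ D, F ∪ P, by rw [card_insert_of_notMem hyN, hNc],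
      grow hl hS hx hy hyN hDM hDy hDc hDn hP hPs h1 h2 h3⟩

/-- (R2) A set of at least three vertices of a 2-connected graph, connected by edges and outside
links, is not critical. -/
theorem not_TG {G : Finset (Sym2 V)} (hG : H8F.TC G) (hl : ∀ v, s(v, v) ∉ G) {M : Finset V}
    (h3 : 3 ≤ M.card) (hM : ¬ DL G M) : ¬ TG G M := by
  intro hT
  have hMn : M.Nonempty := card_pos.1 (by omega)
  obtain ⟨N, Z, F, hNc, hS⟩ := sys_exists hG hl hM hMn (M.card - 2) (by omega)
  obtain ⟨x, hx, y, hy, hyN, hxy⟩ := next hM (card_pos.1 (by omega)) hS.1 (by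
    rintro rfl
    omega)
  have hne : x ≠ y := by
    rintro rfl
    exact hyN hx
  have hxM : x ∈ M := hS.1 hx
  obtain ⟨D, P, hDM, hDy, hDc, hDn, hP, hPs, h1, h2, h4⟩ := link_edges hG hl hxM hy hne hxy
  have hS' := grow hl hS hx hy hyN hDM hDy hDc hDn hP hPs h1 h2 h4
  have hins : insert y N = M := by
    apply eq_of_subset_of_card_le (insert_subset hy hS.1)
    rw [card_insert_of_notMem hyN, hNc]
    omega
  -- the extra ear
  obtain ⟨m0, hm0⟩ : ((M.erase x).erase y).Nonempty := by
    apply card_pos.1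
    rw [card_erase_of_mem (mem_erase.2 ⟨Ne.symm hne, hy⟩), card_erase_of_mem hxM]
    omega
  set T := (M.erase x).erase y with hTdef
  have hyE : y ∈ univ.erase x := mem_erase.2 ⟨Ne.symm hne, mem_univ _⟩
  have hm0E : m0 ∈ univ.erase x := mem_erase.2 ⟨(mem_erase.1 (mem_erase.1 hm0).2).1, mem_univ _⟩
  obtain ⟨p, hp, hpE⟩ := H85TF.path_of_not_disc (hG.2 x) hyE hm0E
  obtain ⟨m, q0, hm, hq1, hq2⟩ := first_hit T p hm0
  have hmM : m ∈ M := (mem_erase.1 (mem_erase.1 hm).2).2
  have hmx : m ≠ x := (mem_erase.1 (mem_erase.1 hm).2).1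
  have hmy : m ≠ y := (mem_erase.1 hm).1
  have hmN : m ∈ N := by
    have : m ∈ insert y N := hins ▸ hmM
    rcases mem_insert.1 this with h | h
    · exact absurd h hmy
    · exact h
  set q := q0.bypass with hqdef
  have hqp : q.IsPath := q0.bypass_isPath
  have hqs : ∀ r ∈ q.support, r ∈ M → r = y ∨ r = m := by
    intro r hr hrM
    have hr0 := q0.support_bypass_subset_support hr
    by_cases hry : r = y
    · exact Or.inl hry
    · right
      apply hq2 r hr0
      refine mem_erase.2 ⟨hry, mem_erase.2 ⟨?_, hrM⟩⟩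
      exact (mem_erase.1 (hpE r (hq1 r hr0))).1
  have hqx : ∀ r ∈ q.support, r ≠ x := fun r hr =>
    (mem_erase.1 (hpE r (hq1 r (q0.support_bypass_subset_support hr)))).1
  have hZ := hS.2.2.2.2.2.2
  have hyZ : y ∉ Z := fun h => disjoint_left.1 hS.2.1 h hy
  have hqZ : ∀ r ∈ q.support, r ∉ Z := avoid hZ q hqp hyZ (by
    intro r hr hrm hrN
    rcases hqs r hr (hS.1 hrN) with h | h
    · exact hyN (h ▸ hrN)
    · exact hrm h)
  have hmD : m ∉ D := fun h => disjoint_left.1 hDM h hmM
  have hqD : ∀ r ∈ q.support, r ∉ D := by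
    have h5 := avoid (Z := D) (B := {x, y}) (fun u hu w hw huw => by
      rcases hDn u hu w hw huw with h | h
      · simp [h]
      · simp [h]) q.reverse hqp.reverse hmD (by
      intro r hr hry hrB
      have hr' : r ∈ q.support := by simpa using hr
      rcases mem_insert.1 hrB with h | h
      · exact hqx r hr' h
      · exact hry (mem_singleton.1 h))
    intro r hr
    exact h5 r (by simpa using hr)
  obtain ⟨Q, hQ, hQs, h5, h6, h7⟩ := path_edges q hqp (Ne.symm hmy)
  have hdj : Disjoint (F ∪ P) Q := by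
    rw [disjoint_left]
    intro e he heQ
    have h8 : ∀ v ∈ e, v = m ∨ v = y := by
      intro v hv
      have hvq := hQs e heQ v hv
      by_cases hvM : v ∈ M
      · exact (hqs v hvq hvM).symm
      · exfalso
        rcases mem_union.1 he with he | he
        · rcases hS.2.2.2.1 e he v hv with h | h
          · exact hvM (hS.1 h)
          · exact hqZ v hvq h
        · rcases hPs e he v hv with h | h | h
          · exact hqD v hvq h
          · exact hvM (h ▸ hxM)
          · exact hvM (h ▸ hy)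
    rcases mem_union.1 he with he' | he'
    · -- `y` is not on `F`, so `e` would be a loop at `m`
      have h9 : ∀ v ∈ e, v = m := by
        intro v hv
        rcases h8 v hv with h | h
        · exact h
        · exfalso
          rcases hS.2.2.2.1 e he' v hv with h' | h'
          · exact hyN (h ▸ h')
          · exact hyZ (h ▸ h')
      induction e using Sym2.ind with
      | _ a b =>
        have ha := h9 a (Sym2.mem_mk_left _ _)
        have hb := h9 b (Sym2.mem_mk_right _ _)
        rw [ha, hb] at heQ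
        exact hl _ (hQ heQ)
    · have h9 : ∀ v ∈ e, v = y := by
        intro v hv
        rcases h8 v hv with h | h
        · exfalso
          rcases hPs e he' v hv with h' | h' | h'
          · exact hmD (h ▸ h')
          · exact hmx (h ▸ h')
          · exact hmy (h ▸ h')
        · exact h
      induction e using Sym2.ind with
      | _ a b =>
        have ha := h9 a (Sym2.mem_mk_left _ _)
        have hb := h9 b (Sym2.mem_mk_right _ _)
        rw [ha, hb] at heQ
        exact hl _ (hQ heQ)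
  set I := q.support.toFinset \ {y, m} with hI
  have hIM : Disjoint I M := by
    rw [disjoint_left]
    intro r hr hrM
    rw [hI, mem_sdiff, List.mem_toFinset] at hr
    rcases hqs r hr.1 hrM with h | h
    · exact hr.2 (by simp [h])
    · exact hr.2 (by simp [h])
  have hQI : ∀ e ∈ Q, ∀ v ∈ e, v ∈ I ∨ v = y ∨ v = m := by
    intro e he v hv
    have hvq := hQs e he v hv
    by_cases h8 : v = y
    · exact Or.inr (Or.inl h8)
    by_cases h9 : v = m
    · exact Or.inr (Or.inr h9)
    left
    rw [hI, mem_sdiff, List.mem_toFinset]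
    refine ⟨hvq, ?_⟩
    rw [mem_insert, mem_singleton]
    rintro (h | h)
    · exact h8 h
    · exact h9 h
  have hsumQ := sum_path hIM hy hmM (Ne.symm hmy) hQI h5 h6
  have hfin := hT ((F ∪ P) ∪ Q) ⟨union_subset hS'.2.2.1 hQ, ?_⟩
  · rw [sum_sub_distrib, sum_congr rfl fun v _ => dg_union hdj v, sum_add_distrib, hsumQ,
      hS'.2.2.2.2.2.1, hins, sum_const, nsmul_eq_mul] at hfin
    linarith
  · intro v hv
    rw [dg_union hdj]
    by_cases hvq : v ∈ q.support
    · have h8 : dg (F ∪ P) v = 0 := dg_eq_zero (by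
        intro e he hve
        rcases mem_union.1 he with he | he
        · rcases hS.2.2.2.1 e he v hve with h | h
          · exact hv (hS.1 h)
          · exact hqZ v hvq h
        · rcases hPs e he v hve with h | h | h
          · exact hqD v hvq h
          · exact hv (h ▸ hxM)
          · exact hv (h ▸ hy))
      rw [h8, zero_add]
      exact h7 v (fun h => hv (h ▸ hy)) (fun h => hv (h ▸ hmM))
    · have h8 : dg Q v = 0 := dg_eq_zero fun e he hve => hvq (hQs e he v hve)
      rw [h8, add_zero]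
      exact hS'.2.2.2.2.1 v hv

end H23TF.R2
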